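import Mathlib

namespace Pool.Agent.Results.MP_ac9862_nt.GolombGaps

open Finset

/-- `a(n) + a(n-1) + ⋯ + a(n-r+1)`; the convention `a(k) = 0` for `k ≤ 0` is encoded by `a 0 = 0`
and truncated subtraction. -/
def psum (a : ℕ → ℕ) (r n : ℕ) : ℕ := ∑ i ∈ range r, a (n - i)

/-- `(a(n))_{n ≥ 1}` is a nondecreasing sequence of positive integers with
`a(a(n) + ⋯ + a(n-r+1)) = n` for all `n ≥ 1` (and `a(0) = 0`). -/
structure Adm (r : ℕ) (a : ℕ → ℕ) : Prop where
  zero : a 0 = 0
  pos : ∀ n, 1 ≤ n → 1 ≤ a n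
  mono : ∀ n, 1 ≤ n → a n ≤ a (n + 1)
  ident : ∀ n, 1 ≤ n → a (psum a r n) = n

/-- The almost Golomb sequence of order `r`: the greedy (lexicographically least) admissible
sequence. At each step `a(n)` is the least value which an admissible sequence that agrees with
`a` before `n` can take at `n`. -/
def IsAlmostGolomb (r : ℕ) (a : ℕ → ℕ) : Prop :=
  Adm r a ∧ ∀ b, Adm r b → ∀ n, (∀ i < n, b i = a i) → a n ≤ b n

/-- Golomb's sequence. -/
def IsGolomb (G : ℕ → ℕ) : Prop :=
  (∀ n, 1 ≤ n → 1 ≤ G n) ∧ (∀ n, 1 ≤ n → G n ≤ G (n + 1)) ∧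
    ∀ n, 1 ≤ n → {i : ℕ | 1 ≤ i ∧ G i = n}.ncard = G n

/-! ### Construction -/

open Classical in
/-- the explicit sequence -/
noncomputable def cc (r : ℕ) : ℕ → ℕ
  | 0 => 0
  | n + 1 => cc r n + if (n + 1 ≤ 2 ∨ ∃ v : Fin (n + 1), 3 ≤ (v : ℕ) ∧
      ∑ i ∈ range r, cc r ((v : ℕ) - i) = n + 1) then 1 else 0
decreasing_by
  all_goals omega

lemma cc_zero (r : ℕ) : cc r 0 = 0 := by rw [cc]

lemma cc_succ_pos {r n : ℕ} (h : n + 1 ≤ 2 ∨ ∃ v, 3 ≤ v ∧ v < n + 1 ∧ psum (cc r) r v = n + 1) :
    cc r (n + 1) = cc r n + 1 := by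
  rw [cc, if_pos]
  rcases h with h | ⟨v, h1, h2, h3⟩
  · left; exact h
  · right; exact ⟨⟨v, h2⟩, h1, h3⟩

lemma cc_succ_neg {r n : ℕ} (h1 : 2 < n + 1)
    (h2 : ∀ v, 3 ≤ v → v < n + 1 → psum (cc r) r v ≠ n + 1) :
    cc r (n + 1) = cc r n := by
  rw [cc, if_neg, add_zero]
  rintro (h | ⟨v, h3, h4⟩)
  · omega
  · exact h2 v h3 v.2 h4

lemma cc_step (r n : ℕ) : cc r n ≤ cc r (n + 1) ∧ cc r (n + 1) ≤ cc r n + 1 := by
  rw [cc]
  split_ifs <;> omega

lemma cc_mono (r : ℕ) : Monotone (cc r) := monotone_nat_of_le_succ fun n => (cc_step r n).1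

lemma cc_one (r : ℕ) : cc r 1 = 1 := by
  rw [cc_succ_pos (Or.inl (by norm_num)), cc_zero]

lemma cc_two (r : ℕ) : cc r 2 = 2 := by
  rw [cc_succ_pos (Or.inl (by norm_num)), cc_one]

lemma cc_three (r : ℕ) : cc r 3 = 2 := by
  rw [cc_succ_neg (by norm_num) (fun v h1 h2 => by omega), cc_two]

lemma cc_le (r n : ℕ) : cc r n ≤ n := by
  induction n with
  | zero => rw [cc_zero]
  | succ n ih => have := (cc_step r n).2; omega

lemma cc_diff (r n k : ℕ) : cc r n ≤ cc r (n - k) + k := by
  induction k with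
  | zero => simp
  | succ k ih =>
    rcases Nat.lt_or_ge k n with h | h
    · have := (cc_step r (n - (k + 1))).2
      rw [show n - (k + 1) + 1 = n - k by omega] at this
      omega
    · rw [show n - (k + 1) = n - k by omega]
      omega

lemma psum_mono {a : ℕ → ℕ} (ha : Monotone a) (r : ℕ) : Monotone (psum a r) := by
  intro m n h
  exact sum_le_sum fun i _ => ha (by omega)

lemma psum_succ (a : ℕ → ℕ) {r : ℕ} (hr : 1 ≤ r) (v : ℕ) :
    psum a r (v + 1) + a (v + 1 - r) = psum a r v + a (v + 1) := by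
  obtain ⟨q, rfl⟩ : ∃ q, r = q + 1 := ⟨r - 1, by omega⟩
  unfold psum
  rw [sum_range_succ', sum_range_succ]
  have h : ∑ k ∈ range q, a (v + 1 - (k + 1)) = ∑ k ∈ range q, a (v - k) :=
    sum_congr rfl fun k _ => by rw [show v + 1 - (k + 1) = v - k by omega]
  rw [h, show v + 1 - (q + 1) = v - q by omega, Nat.sub_zero]
  ring

section

variable {r : ℕ} (hr : 2 ≤ r)

include hr

omit hr in
lemma psum_zero' : psum (cc r) r 0 = 0 := by
  unfold psum
  apply sum_eq_zero
  intro i _
  rw [Nat.zero_sub, cc_zero]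

lemma psum_one : psum (cc r) r 1 = 1 := by
  have := psum_succ (cc r) (r := r) (by omega) 0
  rw [psum_zero', zero_add, cc_one, show 1 - r = 0 by omega, cc_zero] at this
  exact this

lemma psum_two : psum (cc r) r 2 = 3 := by
  have := psum_succ (cc r) (r := r) (by omega) 1
  rw [psum_one hr, show 1 + 1 - r = 0 by omega, cc_zero, show 1 + 1 = 2 by rfl, cc_two] at this
  omega

lemma psum_three : 4 ≤ psum (cc r) r 3 ∧ psum (cc r) r 3 ≤ 5 ∧ psum (cc r) r 3 ≤ r + 2 ∧
    (3 ≤ r → psum (cc r) r 3 = 5) := by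
  have := psum_succ (cc r) (r := r) (by omega) 2
  rw [psum_two hr, show 2 + 1 = 3 by rfl, cc_three] at this
  rcases Nat.lt_or_ge r 3 with h | h
  · obtain rfl : r = 2 := by omega
    rw [show 3 - 2 = 1 by rfl, cc_one] at this
    omega
  · rw [show 3 - r = 0 by omega, cc_zero] at this
    omega

/-- the main structural statement at `n` -/
def KK (r n : ℕ) : Prop := 2 ≤ cc r n ∧ (3 ≤ n → cc r n < n) ∧
  (3 ≤ cc r n → psum (cc r) r (cc r n) ≤ n) ∧ n < psum (cc r) r (cc r n + 1)

lemma W_of_K {n : ℕ} (hK : ∀ m, 2 ≤ m → m ≤ n → KK r m) :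
    ∀ m, 1 ≤ m → m ≤ n → cc r (m - r) < cc r m := by
  intro m hm1 hmn
  rcases Nat.lt_or_ge r m with h | h
  · obtain ⟨x, hx⟩ : ∃ x, m = x + r := ⟨m - r, by omega⟩
    rw [show m - r = x by omega]
    have hx1 : 1 ≤ x := by omega
    rcases Nat.lt_or_ge 1 x with h2 | h2
    · obtain ⟨a1, _, a3, _⟩ := hK x (by omega) (by omega)
      obtain ⟨b1, _, _, b4⟩ := hK m (by omega) hmn
      by_contra hcon
      have hle := cc_mono r (show x ≤ m by omega)
      have heq : cc r m = cc r x := by omega
      rw [heq] at b4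
      rcases Nat.lt_or_ge (cc r x) 3 with h3 | h3
      · have h4 : cc r x = 2 := by omega
        rw [h4] at b4
        change m < psum (cc r) r 3 at b4
        have := (psum_three hr).2.2.1
        omega
      · have h5 := a3 h3
        have h6 := psum_succ (cc r) (r := r) (by omega) (cc r x)
        have h7 := cc_diff r (cc r x + 1) r
        omega
    · have : x = 1 := by omega
      subst this
      rw [cc_one]
      have := cc_mono r (show 2 ≤ m by omega)
      rw [cc_two] at this
      omega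
  · rw [show m - r = 0 by omega, cc_zero]
    have := cc_mono r hm1
    rw [cc_one] at this
    omega

lemma K_all : ∀ n, ∀ m, 2 ≤ m → m ≤ n → KK r m := by
  intro n
  induction n with
  | zero => intro m h1 h2; omega
  | succ n ih =>
    intro m h1 h2
    rcases Nat.lt_or_ge m (n + 1) with h | h
    · exact ih m h1 (by omega)
    obtain rfl : m = n + 1 := by omega
    rcases Nat.lt_or_ge n 2 with hn | hn
    · obtain rfl : n = 1 := by omega
      refine ⟨by rw [cc_two], by omega, by rw [cc_two]; omega, ?_⟩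
      rw [show 1 + 1 = 2 by rfl, cc_two]
      have := (psum_three hr).1
      simpa using (show 2 < psum (cc r) r 3 by omega)
    · have hW := W_of_K hr ih
      obtain ⟨a1, a2, a3, a4⟩ := ih n hn le_rfl
      rcases Nat.lt_or_ge (n + 1) (psum (cc r) r (cc r n + 1)) with h3 | h3
      · have hc : cc r (n + 1) = cc r n := by
          apply cc_succ_neg (by omega)
          intro v hv1 hv2 hv3
          rcases Nat.lt_or_ge v (cc r n + 1) with h4 | h4
          · have := psum_mono (cc_mono r) r (show v ≤ cc r n by omega)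
            have := a3 (by omega)
            omega
          · have := psum_mono (cc_mono r) r h4
            omega
        refine ⟨by omega, by intro _; rw [hc]; have := cc_le r n; omega, ?_, by rw [hc]; exact h3⟩
        rw [hc]
        intro h5
        have := a3 h5
        omega
      · have h5 : psum (cc r) r (cc r n + 1) = n + 1 := by omega
        have hn3 : 3 ≤ n := by
          by_contra hcon
          obtain rfl : n = 2 := by omega
          rw [cc_two] at h5
          change psum (cc r) r 3 = _ at h5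
          have := (psum_three hr).1
          omega
        have hlt := a2 hn3
        have hc : cc r (n + 1) = cc r n + 1 :=
          cc_succ_pos (Or.inr ⟨cc r n + 1, by omega, by omega, h5⟩)
        refine ⟨by omega, by intro _; omega, by intro _; rw [hc, h5], ?_⟩
        rw [hc]
        have h6 := psum_succ (cc r) (r := r) (by omega) (cc r n + 1)
        have h7 : cc r (cc r n + 1 + 1 - r) < cc r (cc r n + 1 + 1) := by
          rcases Nat.lt_or_ge n (cc r n + 1 + 1) with h8 | h8
          · have h9 : cc r n + 1 + 1 = n + 1 := by omega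
            rw [h9, hc]
            have := cc_mono r (show n + 1 - r ≤ n by omega)
            omega
          · exact hW _ (by omega) h8
        omega

lemma K {n : ℕ} (hn : 2 ≤ n) : KK r n := K_all hr n n hn le_rfl

lemma psum_strictMono : StrictMono (psum (cc r) r) := by
  apply strictMono_nat_of_lt_succ
  intro n
  have h1 := W_of_K hr (n := n + 1) (fun m h _ => K hr h) (n + 1) (by omega) le_rfl
  have h2 := psum_succ (cc r) (r := r) (by omega) n
  omega

lemma lt_psum_iff {n k : ℕ} (hn : 2 ≤ n) (hk : 2 ≤ k) :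
    n < psum (cc r) r (k + 1) ↔ cc r n ≤ k := by
  obtain ⟨a1, a2, a3, a4⟩ := K hr hn
  constructor
  · intro h
    by_contra hcon
    have := a3 (by omega)
    have := psum_mono (cc_mono r) r (show k + 1 ≤ cc r n by omega)
    omega
  · intro h
    have := psum_mono (cc_mono r) r (show cc r n + 1 ≤ k + 1 by omega)
    omega

lemma cc_psum {v : ℕ} (hv : 1 ≤ v) : cc r (psum (cc r) r v) = v := by
  rcases Nat.lt_or_ge v 3 with h | h
  · have : v = 1 ∨ v = 2 := by omega
    rcases this with rfl | rfl
    · rw [psum_one hr, cc_one]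
    · rw [psum_two hr, cc_three]
  · have h3 := (psum_three hr).1
    have h4 := psum_mono (cc_mono r) r h
    have hn : 2 ≤ psum (cc r) r v := by omega
    have h5 := (lt_psum_iff hr hn (show 2 ≤ v by omega)).1
      (psum_strictMono hr (show v < v + 1 by omega))
    have h6 : ¬ (cc r (psum (cc r) r v) ≤ v - 1) := by
      rw [← lt_psum_iff hr hn (by omega), show v - 1 + 1 = v by omega]
      exact lt_irrefl _
    omega

lemma adm_cc : Adm r (cc r) where
  zero := cc_zero r
  pos := fun n hn => by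
    have := cc_mono r hn
    rw [cc_one] at this
    exact this
  mono := fun n _ => (cc_step r n).1
  ident := fun n hn => cc_psum hr hn

lemma isAlmostGolomb_cc : IsAlmostGolomb r (cc r) := by
  refine ⟨adm_cc hr, fun b hb n hbn => ?_⟩
  rcases Nat.lt_or_ge n 3 with h | h
  · interval_cases n
    · rw [cc_zero]; exact Nat.zero_le _
    · rw [cc_one]; exact hb.pos 1 le_rfl
    · rw [cc_two]
      by_contra hcon
      have h1 := hb.pos 2 (by norm_num)
      have h2 : b 2 = 1 := by omega
      have hb1 : b 1 = 1 := by rw [hbn 1 (by norm_num), cc_one]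
      have h3 : psum b r 2 = 2 := by
        have e1 := psum_succ b (r := r) (by omega) 1
        have e2 := psum_succ b (r := r) (by omega) 0
        have e3 : psum b r 0 = 0 := by
          unfold psum
          apply sum_eq_zero
          intro i _
          rw [Nat.zero_sub, hb.zero]
        rw [show 0 + 1 - r = 0 by omega, hb.zero, show 0 + 1 = 1 by rfl, hb1] at e2
        rw [show 1 + 1 - r = 0 by omega, hb.zero, show 1 + 1 = 2 by rfl, h2] at e1
        omega
      have h4 := hb.ident 2 (by norm_num)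
      rw [h3, h2] at h4
      omega
  · obtain ⟨m, rfl⟩ : ∃ m, n = m + 1 := ⟨n - 1, by omega⟩
    by_cases hex : ∃ v, 3 ≤ v ∧ v < m + 1 ∧ psum (cc r) r v = m + 1
    · obtain ⟨v, hv1, hv2, hv3⟩ := hex
      have h1 : psum b r v = m + 1 := by
        rw [← hv3]
        unfold psum
        exact sum_congr rfl fun i _ => hbn _ (by omega)
      have h2 := hb.ident v (by omega)
      rw [h1] at h2
      rw [h2, ← hv3, cc_psum hr (by omega)]
    · push Not at hex
      rw [cc_succ_neg (by omega) hex, ← hbn m (by omega)]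
      exact hb.mono m (by omega)

lemma unique_cc {a : ℕ → ℕ} (ha : IsAlmostGolomb r a) : a = cc r := by
  funext n
  induction n using Nat.strong_induction_on with
  | _ n ih =>
    apply le_antisymm
    · exact ha.2 _ (adm_cc hr) n fun i hi => (ih i hi).symm
    · exact (isAlmostGolomb_cc hr).2 a ha.1 n ih

/-! ### The upper bound for the multiplicities -/

lemma early {g : ℕ} (hg : cc r r ≤ g) : ∀ j, 1 ≤ j → j + g ≤ r →
    psum (cc r) r j + r ≤ psum (cc r) r (j + g) := by
  intro j hj
  induction j, hj using Nat.le_induction with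
  | base =>
    intro _
    rw [psum_one hr]
    have h1 := (K hr hr).2.2.2
    have h2 := psum_mono (cc_mono r) r (show cc r r + 1 ≤ 1 + g by omega)
    omega
  | succ j hj ih =>
    intro h
    have h1 := ih (by omega)
    have h2 := psum_succ (cc r) (r := r) (by omega) j
    have h3 := psum_succ (cc r) (r := r) (by omega) (j + g)
    rw [show j + 1 - r = 0 by omega, cc_zero] at h2
    rw [show j + g + 1 - r = 0 by omega, cc_zero] at h3
    have h4 := cc_mono r (show j + 1 ≤ j + g + 1 by omega)
    rw [show j + 1 + g = j + g + 1 by ring]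
    omega

lemma window_bound {g : ℕ} (hg : cc r r ≤ g) (hg3 : 3 ≤ g) : ∀ n, cc r n ≤ cc r (n - r) + g := by
  intro n
  induction n using Nat.strong_induction_on with
  | _ n ih =>
    rcases Nat.lt_or_ge r n with hn | hn
    swap
    · have := cc_mono r hn
      omega
    by_contra hcon
    push Not at hcon
    -- every block of `g` positions contains an increment
    have hZ : ∀ x, x + g < n → cc r x + 1 ≤ cc r (x + g) := by
      intro x hx
      rcases Nat.lt_or_ge (cc r x) 3 with h | h
      · have hx5 : x < 2 ∨ 2 ≤ x := by omega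
        rcases hx5 with h5 | h5
        · have h6 := cc_mono r (show 2 ≤ x + g by omega)
          rw [cc_two] at h6
          have h7 := cc_le r x
          omega
        · have h6 := cc_mono r (show psum (cc r) r 3 ≤ x + g by
            have := (psum_three hr).2.1
            omega)
          rw [cc_psum hr (by norm_num)] at h6
          omega
      · have hx2 : 2 ≤ x := by have := cc_le r x; omega
        have h1 := (K hr hx2).2.2.1 h
        have h2 := psum_succ (cc r) (r := r) (by omega) (cc r x)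
        have h3 := ih (cc r x + 1) (by have := cc_le r x; omega)
        have h4 := cc_mono r (show psum (cc r) r (cc r x + 1) ≤ x + g by omega)
        rw [cc_psum hr (by omega)] at h4
        exact h4
    set s := cc r (n - r) with hs
    have hs1 : 1 ≤ s := by
      have := cc_mono r (show 1 ≤ n - r by omega)
      rw [cc_one] at this
      omega
    have hn2 : 2 ≤ n := by omega
    have hcn := cc_le r n
    have h1 : psum (cc r) r (s + 1 + g) ≤ n := by
      have h2 := (K hr hn2).2.2.1 (by omega)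
      have h3 := psum_mono (cc_mono r) r (show s + 1 + g ≤ cc r n by omega)
      omega
    have h4 : n - r < psum (cc r) r (s + 1) := by
      rcases Nat.lt_or_ge (n - r) 2 with h5 | h5
      · have h6 := psum_mono (cc_mono r) r (show 2 ≤ s + 1 by omega)
        rw [psum_two hr] at h6
        omega
      · exact (K hr h5).2.2.2
    have hn3 : cc r n < n := (K hr hn2).2.1 (by omega)
    have h5 : psum (cc r) r (s + 1) + r ≤ psum (cc r) r (s + 1 + g) := by
      rcases Nat.lt_or_ge (s + 1 + g) r with h6 | h6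
      · exact early hr hg _ (by omega) h6.le
      · have h7 : psum (cc r) r (s + 1) + r = ∑ u ∈ range r, (cc r (s + 1 - u) + 1) := by
          rw [sum_add_distrib, sum_const, card_range, smul_eq_mul, mul_one]
          rfl
        rw [h7]
        unfold psum
        apply sum_le_sum
        intro u hu
        have hu' := mem_range.1 hu
        rcases Nat.lt_or_ge (s + 1) u with h8 | h8
        · rw [show s + 1 - u = 0 by omega, cc_zero]
          have := cc_mono r (show 1 ≤ s + 1 + g - u by omega)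
          rw [cc_one] at this
          omega
        · have h9 := hZ (s + 1 - u) (by omega)
          rw [show s + 1 - u + g = s + 1 + g - u by omega] at h9
          exact h9
    omega

/-- number of occurrences of `v` -/
lemma occ_eq {v : ℕ} (hv : 3 ≤ v) : {i : ℕ | 1 ≤ i ∧ cc r i = v} =
    ↑(Finset.Ico (psum (cc r) r v) (psum (cc r) r (v + 1))) := by
  ext i
  rw [Finset.coe_Ico]
  simp only [Set.mem_Ico]
  change (1 ≤ i ∧ cc r i = v) ↔ _
  constructor
  · rintro ⟨_, h2⟩
    have hi : 2 ≤ i := by have := cc_le r i; omega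
    have h3 := K hr hi
    refine ⟨?_, ?_⟩
    · have := h3.2.2.1 (by omega)
      rwa [h2] at this
    · have := h3.2.2.2
      rwa [h2] at this
  · rintro ⟨h1, h2⟩
    have h3 := cc_mono r h1
    rw [cc_psum hr (by omega)] at h3
    have hi : 2 ≤ i := by have := cc_le r i; omega
    have h4 := (lt_psum_iff hr hi (show 2 ≤ v by omega)).1 h2
    exact ⟨by omega, by omega⟩

lemma occ_card {v : ℕ} (hv : 3 ≤ v) : {i : ℕ | 1 ≤ i ∧ cc r i = v}.ncard + cc r (v + 1 - r) =
    cc r (v + 1) := by
  rw [occ_eq hr hv, Set.ncard_coe_finset, Nat.card_Ico]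
  have := psum_succ (cc r) (r := r) (by omega) v
  have := psum_strictMono hr (show v < v + 1 by omega)
  omega

lemma occ_le {v : ℕ} : {i : ℕ | 1 ≤ i ∧ cc r i = v}.ncard ≤ max (cc r r) 3 := by
  rcases Nat.lt_or_ge v 3 with h | h
  · have hsub : {i : ℕ | 1 ≤ i ∧ cc r i = v} ⊆ ↑(Finset.Icc v (v + 2)) := by
      rintro i ⟨h1, h2⟩
      rw [Finset.coe_Icc]
      have h3 := cc_le r i
      refine ⟨by omega, ?_⟩
      by_contra hcon
      have h0 : v ≠ 0 := by
        rintro rfl
        have := cc_mono r h1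
        rw [cc_one] at this
        omega
      have : v = 1 ∨ v = 2 := by omega
      rcases this with rfl | rfl
      · have := cc_mono r (show 2 ≤ i by omega)
        rw [cc_two] at this
        omega
      · have h4 := (psum_three hr).2.1
        have h5 := cc_mono r (show psum (cc r) r 3 ≤ i by omega)
        rw [cc_psum hr (by norm_num)] at h5
        omega
    have := Set.ncard_le_ncard hsub (Finset.finite_toSet _)
    rw [Set.ncard_coe_finset, Nat.card_Icc] at this
    have h3 := le_max_right (cc r r) 3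
    omega
  · have h1 := occ_card hr h
    have h2 := window_bound hr (le_max_left (cc r r) 3) (le_max_right _ _) (v + 1)
    omega

lemma occ_peak (hr4 : 4 ≤ r) : {i : ℕ | 1 ≤ i ∧ cc r i = r - 1}.ncard = cc r r := by
  have h := occ_card hr (show 3 ≤ r - 1 by omega)
  rw [show r - 1 + 1 = r by omega, Nat.sub_self, cc_zero] at h
  omega

end

/-! ### Golomb's sequence -/

/-- `S(k) = G(1) + ⋯ + G(k)` -/
def S (G : ℕ → ℕ) (k : ℕ) : ℕ := ∑ n ∈ Icc 1 k, G n

lemma S_succ (G : ℕ → ℕ) (k : ℕ) : S G (k + 1) = S G k + G (k + 1) := by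
  unfold S
  rw [Finset.sum_Icc_succ_top (by omega)]

lemma golomb_mono {G : ℕ → ℕ} (hG : IsGolomb G) {m n : ℕ} (hm : 1 ≤ m) (h : m ≤ n) :
    G m ≤ G n := by
  induction n, h using Nat.le_induction with
  | base => exact le_rfl
  | succ n hn ih => exact ih.trans (hG.2.1 n (by omega))

lemma golomb_le_iff {G : ℕ → ℕ} (hG : IsGolomb G) (k : ℕ) {x : ℕ} (hx : 1 ≤ x) :
    G x ≤ k ↔ x ≤ S G k := by
  have hfin : ∀ n, 1 ≤ n → {i : ℕ | 1 ≤ i ∧ G i = n}.Finite := by
    intro n hn
    apply Set.finite_of_ncard_ne_zero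
    rw [hG.2.2 n hn]
    have := hG.1 n hn
    omega
  have hcard : ∀ k, {i : ℕ | 1 ≤ i ∧ G i ≤ k}.Finite ∧
      {i : ℕ | 1 ≤ i ∧ G i ≤ k}.ncard = S G k := by
    intro k
    induction k with
    | zero =>
      have : {i : ℕ | 1 ≤ i ∧ G i ≤ 0} = ∅ := by
        ext i
        simp only [Set.mem_empty_iff_false, iff_false]
        rintro ⟨h1, h2⟩
        have := hG.1 i h1
        omega
      rw [this]
      simp [S]
    | succ k ih =>
      have hun : {i : ℕ | 1 ≤ i ∧ G i ≤ k + 1} = {i : ℕ | 1 ≤ i ∧ G i ≤ k} ∪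
          {i : ℕ | 1 ≤ i ∧ G i = k + 1} := by
        ext i
        constructor
        · rintro ⟨h1, h2⟩
          rcases Nat.lt_or_ge (G i) (k + 1) with h | h
          · left; exact ⟨h1, by omega⟩
          · right; exact ⟨h1, by omega⟩
        · rintro (⟨h1, h2⟩ | ⟨h1, h2⟩)
          · exact ⟨h1, by omega⟩
          · exact ⟨h1, by omega⟩
      have hdis : Disjoint {i : ℕ | 1 ≤ i ∧ G i ≤ k} {i : ℕ | 1 ≤ i ∧ G i = k + 1} := by
        rw [Set.disjoint_left]
        rintro i ⟨_, h2⟩ ⟨_, h4⟩
        omega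
      rw [hun]
      refine ⟨ih.1.union (hfin (k + 1) (by omega)), ?_⟩
      rw [Set.ncard_union_eq hdis ih.1 (hfin (k + 1) (by omega)), ih.2,
        hG.2.2 (k + 1) (by omega), S_succ]
  obtain ⟨hf, hc⟩ := hcard k
  constructor
  · intro h
    have hsub : (↑(Finset.Icc 1 x) : Set ℕ) ⊆ {i : ℕ | 1 ≤ i ∧ G i ≤ k} := by
      intro i hi
      rw [Finset.coe_Icc] at hi
      exact ⟨hi.1, (golomb_mono hG hi.1 hi.2).trans h⟩
    have := Set.ncard_le_ncard hsub hf
    rw [Set.ncard_coe_finset, Nat.card_Icc, hc] at this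
    omega
  · intro h
    by_contra hcon
    have hsub : {i : ℕ | 1 ≤ i ∧ G i ≤ k} ⊆ (↑(Finset.Icc 1 (x - 1)) : Set ℕ) := by
      rintro i ⟨h1, h2⟩
      rw [Finset.coe_Icc]
      refine ⟨h1, ?_⟩
      by_contra hi
      have := golomb_mono hG hx (show x ≤ i by omega)
      omega
    have := Set.ncard_le_ncard hsub (Finset.finite_toSet _)
    rw [Set.ncard_coe_finset, Nat.card_Icc, hc] at this
    omega

lemma golomb_one {G : ℕ → ℕ} (hG : IsGolomb G) : G 1 = 1 := by
  have h1 := hG.1 1 le_rfl
  have h2 : ({i : ℕ | 1 ≤ i ∧ G i = 1}).Nonempty := by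
    rw [Set.nonempty_iff_ne_empty]
    intro h
    have := hG.2.2 1 le_rfl
    rw [h, Set.ncard_empty] at this
    omega
  obtain ⟨i, h3, h4⟩ := h2
  have := golomb_mono hG le_rfl h3
  omega

lemma S_one {G : ℕ → ℕ} (hG : IsGolomb G) : S G 1 = 1 := by
  simp [S, golomb_one hG]

lemma golomb_two {G : ℕ → ℕ} (hG : IsGolomb G) : G 2 = 2 := by
  have h1 := golomb_le_iff hG 1 (x := 2) (by norm_num)
  have h2 := golomb_le_iff hG 2 (x := 2) (by norm_num)
  rw [S_one hG] at h1
  have h3 : S G 2 = S G 1 + G 2 := S_succ G 1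
  rw [S_one hG] at h3
  have h4 := hG.1 2 (by norm_num)
  have h5 := h2.2 (by omega)
  by_contra hcon
  have := h1.1 (by omega)
  omega

lemma S_ge {G : ℕ → ℕ} (hG : IsGolomb G) (k : ℕ) : k ≤ S G k := by
  induction k with
  | zero => exact Nat.zero_le _
  | succ k ih =>
    rw [S_succ]
    have := hG.1 (k + 1) (by omega)
    omega

section

variable {r : ℕ} (hr : 2 ≤ r) {G : ℕ → ℕ} (hG : IsGolomb G)

include hr hG

lemma psum_golomb {k : ℕ} (hk : 2 ≤ k) (hkr : k + 1 ≤ r)
    (h : ∀ i, 3 ≤ i → i ≤ k + 1 → cc r i = G (i - 1)) :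
    psum (cc r) r (k + 1) = S G k + 2 := by
  induction k, hk using Nat.le_induction with
  | base =>
    have h1 := (psum_three hr).2.2.2 hkr
    change psum (cc r) r 3 = _
    have h3 : S G 2 = S G 1 + G 2 := S_succ G 1
    rw [h1, h3, S_one hG, golomb_two hG]
  | succ k hk ih =>
    have h1 := ih (by omega) (fun i h1 h2 => h i h1 (by omega))
    have h2 := psum_succ (cc r) (r := r) (by omega) (k + 1)
    rw [show k + 1 + 1 - r = 0 by omega, cc_zero, h (k + 1 + 1) (by omega) le_rfl,
      show k + 1 + 1 - 1 = k + 1 by omega] at h2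
    rw [S_succ]
    omega

lemma cc_eq_golomb : ∀ n, 3 ≤ n → n ≤ r → cc r n = G (n - 1) := by
  intro n
  induction n using Nat.strong_induction_on with
  | _ n ih =>
    intro h3 hnr
    have key : ∀ k, 2 ≤ k → (cc r n ≤ k ↔ G (n - 1) ≤ k) := by
      intro k hk
      rw [← lt_psum_iff hr (by omega) hk, golomb_le_iff hG k (by omega)]
      rcases Nat.lt_or_ge (k + 1) n with h | h
      · rw [psum_golomb hr hG hk (by omega) (fun i h1 h2 => ih i (by omega) h1 (by omega))]
        omega
      · have h1 := psum_mono (cc_mono r) r h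
        have h2 := (psum_strictMono hr).id_le n
        have h4 : n < psum (cc r) r n := by
          have : ∀ j, 3 ≤ j → j < psum (cc r) r j := by
            intro j hj
            induction j, hj using Nat.le_induction with
            | base => have := (psum_three hr).1; omega
            | succ j hj ih' =>
              have := psum_strictMono hr (show j < j + 1 by omega)
              omega
          exact this n h3
        have h5 := S_ge hG k
        constructor
        · intro _; omega
        · intro _; omega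
    have h1 : 2 ≤ cc r n := by
      have := cc_mono r (show 2 ≤ n by omega)
      rwa [cc_two] at this
    have h2 : 2 ≤ G (n - 1) := by
      have := golomb_mono hG (show 1 ≤ 2 by norm_num) (show 2 ≤ n - 1 by omega)
      rwa [golomb_two hG] at this
    have h4 := (key (cc r n) h1).1 le_rfl
    have h5 := (key (G (n - 1)) h2).2 le_rfl
    omega

end

/-! ### The final statement -/

/-- `N(v) = #{i ≥ 1 : a(i) = v}` -/
noncomputable def mult (a : ℕ → ℕ) (v : ℕ) : ℕ := {i : ℕ | 1 ≤ i ∧ a i = v}.ncard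

/-- `M = sup_v N(v)` -/
noncomputable def maxMult (a : ℕ → ℕ) : ℕ := sSup {N : ℕ | ∃ v, 1 ≤ v ∧ N = mult a v}

lemma bdd {r : ℕ} (hr : 2 ≤ r) : BddAbove {N : ℕ | ∃ v, 1 ≤ v ∧ N = mult (cc r) v} := by
  refine ⟨max (cc r r) 3, ?_⟩
  rintro N ⟨v, _, rfl⟩
  exact occ_le hr

lemma le_maxMult_iff {r k : ℕ} (hr : 2 ≤ r) (hk : 4 ≤ k) : k ≤ maxMult (cc r) ↔ k ≤ cc r r := by
  constructor
  · intro h
    have hne : {N : ℕ | ∃ v, 1 ≤ v ∧ N = mult (cc r) v}.Nonempty := ⟨_, 1, le_rfl, rfl⟩
    have h1 : maxMult (cc r) ≤ max (cc r r) 3 := by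
      apply csSup_le hne
      rintro N ⟨v, _, rfl⟩
      exact occ_le hr
    rcases le_max_iff.1 (h.trans h1) with h2 | h2
    · exact h2
    · omega
  · intro h
    have hr4 : 4 ≤ r := h.trans (cc_le r r) |>.trans' hk
    have h1 : cc r r ≤ maxMult (cc r) := by
      apply le_csSup (bdd hr)
      exact ⟨r - 1, by omega, (occ_peak hr hr4).symm⟩
    omega

/-- For every `r ≥ 2` there is exactly one almost Golomb sequence of order `r`; its multiplicities
are bounded. Writing `M(r)` for the maximal multiplicity and `j_k` for the least `r ≥ 2` with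
`M(r) ≥ k`, for every `k ≥ 4` the threshold `j_k` exists, `j_k = S(k-1) + 2` and
`G(k) = j_{k+1} - j_k`, with `G` Golomb's sequence and `S` its summatory function. -/
theorem result :
    (∀ r, 2 ≤ r → ∃! a, IsAlmostGolomb r a) ∧
    ∀ (a : ℕ → ℕ → ℕ) (_ : ∀ r, 2 ≤ r → IsAlmostGolomb r (a r)) (G : ℕ → ℕ) (_ : IsGolomb G),
      (∀ r, 2 ≤ r → BddAbove {N : ℕ | ∃ v, 1 ≤ v ∧ N = mult (a r) v}) ∧
      ∀ j : ℕ → ℕ, (∀ k, j k = sInf {r : ℕ | 2 ≤ r ∧ k ≤ maxMult (a r)}) →
        ∀ k, 4 ≤ k → {r : ℕ | 2 ≤ r ∧ k ≤ maxMult (a r)}.Nonempty ∧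
          {r : ℕ | 2 ≤ r ∧ k + 1 ≤ maxMult (a r)}.Nonempty ∧
          j k = S G (k - 1) + 2 ∧ (G k : ℤ) = (j (k + 1) : ℤ) - j k := by
  refine ⟨fun r hr => ⟨cc r, isAlmostGolomb_cc hr, fun b hb => unique_cc hr hb⟩, ?_⟩
  intro a ha G hG
  have hac : ∀ r, 2 ≤ r → a r = cc r := fun r hr => unique_cc hr (ha r hr)
  refine ⟨fun r hr => by rw [hac r hr]; exact bdd hr, ?_⟩
  intro j hj
  have main : ∀ k, 4 ≤ k → IsLeast {r : ℕ | 2 ≤ r ∧ k ≤ maxMult (a r)} (S G (k - 1) + 2) := by
    intro k hk
    have hS := S_ge hG (k - 1)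
    have hiff : ∀ r, 3 ≤ r → (k ≤ maxMult (a r) ↔ S G (k - 1) + 2 ≤ r) := by
      intro r hr
      rw [hac r (by omega), le_maxMult_iff (by omega) hk, cc_eq_golomb (by omega) hG r hr le_rfl]
      have := golomb_le_iff hG (k - 1) (show 1 ≤ r - 1 by omega)
      omega
    constructor
    · exact ⟨by omega, (hiff _ (by omega)).2 le_rfl⟩
    · rintro r ⟨h1, h2⟩
      rcases Nat.lt_or_ge r 3 with h | h
      · exfalso
        rw [hac r h1, le_maxMult_iff h1 hk] at h2
        have := cc_le r r
        omega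
      · exact (hiff r h).1 h2
  intro k hk
  have h1 := main k hk
  have h2 := main (k + 1) (by omega)
  have e1 : j k = S G (k - 1) + 2 := by rw [hj]; exact h1.csInf_eq
  have e2 : j (k + 1) = S G (k + 1 - 1) + 2 := by rw [hj]; exact h2.csInf_eq
  refine ⟨⟨_, h1.1⟩, ⟨_, h2.1⟩, e1, ?_⟩
  rw [e1, e2]
  have h3 := S_succ G (k - 1)
  rw [show k - 1 + 1 = k by omega] at h3
  rw [show k + 1 - 1 = k by omega, h3]
  push_cast
  ring

end Pool.Agent.Results.MP_ac9862_nt.GolombGaps
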